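import Pool.Agent.W661.RC.Stm

/-!
Project RC (helper661): part RC-GRE (helper654).
-/

set_option autoImplicit false

namespace Pool.Agent.W654.RC

open Matrix Pool.Agent.W661.RC
open scoped ComplexOrder

theorem tr_nonneg {d : ℕ} {x : Mt d} (h : x.PosSemidef) : 0 ≤ tr x :=
  (Complex.le_def.1 h.trace_nonneg).1

theorem tr_add {d : ℕ} (x y : Mt d) : tr (x + y) = tr x + tr y := by
  unfold tr; rw [Matrix.trace_add, Complex.add_re]

theorem tr_sub {d : ℕ} (x y : Mt d) : tr (x - y) = tr x - tr y := by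
  unfold tr; rw [Matrix.trace_sub, Complex.sub_re]

theorem tr_one {d : ℕ} : tr (1 : Mt d) = d := by
  unfold tr; rw [Matrix.trace_one]; simp

theorem tr_smul {d : ℕ} (c : ℝ) (x : Mt d) : tr ((c : ℂ) • x) = c * tr x := by
  unfold tr; rw [Matrix.trace_smul, smul_eq_mul, Complex.re_ofReal_mul]

theorem tr_comm {d : ℕ} (x y : Mt d) : tr (x * y) = tr (y * x) := by
  unfold tr; rw [Matrix.trace_mul_comm]

theorem tr_mono {d : ℕ} {x y : Mt d} (h : Le x y) : tr x ≤ tr y := by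
  have := tr_nonneg h
  rw [tr_sub] at this
  linarith

theorem pr_pos {d : ℕ} {f : Mt d} (hf : IsPr f) : f.PosSemidef := by
  have h := posSemidef_conjTranspose_mul_self f
  rwa [hf.1, hf.2] at h

/-- the trace of a projection is a natural number -/
theorem tr_nat {d : ℕ} {f : Mt d} (hf : IsPr f) : ∃ n : ℕ, tr f = n := by
  have hid : IsIdempotentElem (Matrix.toLin' f) := by
    show Matrix.toLin' f * Matrix.toLin' f = Matrix.toLin' f
    have : Matrix.toLin' f * Matrix.toLin' f = Matrix.toLin' (f * f) := by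
      rw [Matrix.toLin'_mul]; rfl
    rw [this, hf.2]
  have h := (LinearMap.IsIdempotentElem.isProj_range _ hid).trace
  rw [Matrix.trace_toLin'_eq] at h
  refine ⟨Module.finrank ℂ (LinearMap.range (Matrix.toLin' f)), ?_⟩
  unfold tr
  rw [h]
  simp

theorem one_le_tr {d : ℕ} {f : Mt d} (hf : IsPr f) (h : 0 < tr f) : 1 ≤ tr f := by
  obtain ⟨n, hn⟩ := tr_nat hf
  rw [hn] at h ⊢
  have : 0 < n := by exact_mod_cast h
  exact_mod_cast this

theorem Qs_pos {d : ℕ} {f : ℕ → Mt d} {n : ℕ} (hf : ∀ i < n, IsPr (f i)) :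
    (Qs f n).PosSemidef := by
  unfold Qs
  exact posSemidef_sum _ (fun i hi => pr_pos (hf i (Finset.mem_range.1 hi)))

theorem lamQ_pos {d : ℕ} {lam : ℝ} (hl : 0 ≤ lam) {Q : Mt d} (hQ : Q.PosSemidef) :
    ((lam : ℂ) • Q).PosSemidef := by
  have h0 : (0 : ℂ) ≤ (lam : ℂ) := by exact_mod_cast hl
  exact hQ.smul h0

theorem one_add_posDef {d : ℕ} {lam : ℝ} (hl : 0 ≤ lam) {Q : Mt d} (hQ : Q.PosSemidef) :
    (1 + (lam : ℂ) • Q).PosDef := Matrix.PosDef.one.add_posSemidef (lamQ_pos hl hQ)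

theorem gg_posDef {d : ℕ} {lam : ℝ} (hl : 0 ≤ lam) {Q : Mt d} (hQ : Q.PosSemidef) :
    (gg lam Q).PosDef := (one_add_posDef hl hQ).inv

theorem hh_pos {d : ℕ} {lam : ℝ} (hl : 0 ≤ lam) {Q : Mt d} (hQ : Q.PosSemidef) :
    (hh lam Q).PosSemidef := by
  set R : Mt d := (lam : ℂ) • Q with hR
  have hRp : R.PosSemidef := lamQ_pos hl hQ
  have hg : (gg lam Q).PosDef := gg_posDef hl hQ
  have hu : IsUnit (1 + R).det := by
    have := (one_add_posDef hl hQ).isUnit
    exact (Matrix.isUnit_iff_isUnit_det _).1 this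
  have h1 : gg lam Q * (1 + R) = 1 := by
    unfold gg
    exact Matrix.nonsing_inv_mul _ hu
  have h2 : (1 + R) * gg lam Q = 1 := by
    unfold gg
    exact Matrix.mul_nonsing_inv _ hu
  have h3 : hh lam Q = gg lam Q * (R + Rᴴ * R) * (gg lam Q)ᴴ := by
    rw [hg.isHermitian.eq, hRp.isHermitian.eq]
    have e1 : R + R * R = (1 + R) * (1 + R) - (1 + R) := by noncomm_ring
    rw [e1, mul_sub, sub_mul, ← mul_assoc, h1, one_mul, h2, one_mul]
    rfl
  rw [h3]
  refine Matrix.PosSemidef.mul_mul_conjTranspose_same ?_ _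
  exact hRp.add (posSemidef_conjTranspose_mul_self R)

theorem tr_hf {d : ℕ} {h f : Mt d} (hh : h.PosSemidef) (hf : IsPr f) : 0 ≤ tr (h * f) := by
  have h1 : tr (h * f) = tr (f * h * fᴴ) := by
    rw [hf.1]
    calc tr (h * f) = tr (h * (f * f)) := by rw [hf.2]
      _ = tr (h * f * f) := by rw [mul_assoc]
      _ = tr (f * (h * f)) := tr_comm _ _
      _ = tr (f * h * f) := by rw [mul_assoc]
  rw [h1]
  exact tr_nonneg (hh.mul_mul_conjTranspose_same f)

theorem tr_gfg {d : ℕ} {lam : ℝ} (hl : 0 ≤ lam) {Q f : Mt d} (hQ : Q.PosSemidef) (hf : IsPr f) :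
    tr f - 2 * tr (hh lam Q * f) ≤ tr (gg lam Q * f * gg lam Q) := by
  have hp := hh_pos hl hQ
  have h1 : gg lam Q = 1 - hh lam Q := by unfold hh; abel
  have h2 : gg lam Q * f * gg lam Q =
      f - hh lam Q * f - f * hh lam Q + hh lam Q * f * hh lam Q := by
    rw [h1]; noncomm_ring
  have h3 : 0 ≤ tr (hh lam Q * f * hh lam Q) := by
    have := (pr_pos hf).mul_mul_conjTranspose_same (hh lam Q)
    rw [hp.isHermitian.eq] at this
    exact tr_nonneg this
  rw [h2, tr_add, tr_sub, tr_sub, tr_comm f (hh lam Q)]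
  linarith

theorem tr_sum {d : ℕ} (n : ℕ) (x : ℕ → Mt d) :
    tr (∑ i ∈ Finset.range n, x i) = ∑ i ∈ Finset.range n, tr (x i) := by
  unfold tr
  rw [Matrix.trace_sum, Complex.re_sum]

theorem total {d k : ℕ} {C η δ : ℝ} (hA : ResAP) (S : Stp d k C η δ) {lam e3 : ℝ} (hl : 2 ≤ lam)
    {n : ℕ} {f : ℕ → Mt d} (hG : Greedy S lam e3 n f) :
    ∑ i ∈ Finset.range n, tr (f i) ≤ 2 * d := by
  have hpr : ∀ i < n, IsPr (f i) := fun i hi => (hG i hi).1.pr
  have hl0 : (0 : ℝ) ≤ lam := by linarith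
  have h1 := tr_mono (hA d n f lam (by linarith) hpr)
  rw [tr_sum, tr_smul, tr_sub, tr_one] at h1
  have hg := tr_nonneg (gg_posDef hl0 (Qs_pos hpr)).posSemidef
  have h2 : 1 / lam ≤ 1 / 2 := one_div_le_one_div_of_le (by norm_num) hl
  have h2' : 0 ≤ 1 / lam := by positivity
  have hd : (0 : ℝ) ≤ d := Nat.cast_nonneg _
  have h3 : (1 + 1 / lam) * ((d : ℝ) - tr (gg lam (Qs f n))) ≤ 3 / 2 * d := by
    calc (1 + 1 / lam) * ((d : ℝ) - tr (gg lam (Qs f n))) ≤ (1 + 1 / lam) * d :=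
          mul_le_mul_of_nonneg_left (by linarith) (by linarith)
      _ ≤ 3 / 2 * d := mul_le_mul_of_nonneg_right (by linarith) hd
  have h4 : ∑ i ∈ Finset.range n, 7 / 8 * tr (f i) ≤
      ∑ i ∈ Finset.range n, tr (gg lam (Qs f i) * f i * gg lam (Qs f i)) := by
    refine Finset.sum_le_sum fun i hi => ?_
    have hi' := Finset.mem_range.1 hi
    have h5 := tr_gfg hl0 (Qs_pos (fun j hj => hpr j (hj.trans hi'))) (hpr i hi')
    have h6 := (hG i hi').1.ov
    linarith
  rw [← Finset.mul_sum] at h4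
  linarith

theorem count {d k : ℕ} {C η δ : ℝ} (hA : ResAP) (S : Stp d k C η δ) {lam e3 : ℝ} (hl : 2 ≤ lam)
    {n : ℕ} {f : ℕ → Mt d} (hG : Greedy S lam e3 n f) : n ≤ 2 * d := by
  have h1 := total hA S hl hG
  have h2 : ∑ i ∈ Finset.range n, (1 : ℝ) ≤ ∑ i ∈ Finset.range n, tr (f i) :=
    Finset.sum_le_sum fun i hi =>
      one_le_tr (hG i (Finset.mem_range.1 hi)).1.pr (hG i (Finset.mem_range.1 hi)).1.nz
  rw [Finset.sum_const, Finset.card_range, nsmul_eq_mul, mul_one] at h2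
  have h3 : (n : ℝ) ≤ 2 * d := h2.trans h1
  exact_mod_cast h3

theorem near_min {d k : ℕ} {C η δ : ℝ} (S : Stp d k C η δ) {lam e3 : ℝ} (hl : 2 ≤ lam)
    (he : 0 < e3) {Q : Mt d} (hQ : Q.PosSemidef) (hne : ∃ f' : Mt d, InF S lam Q f') :
    ∃ f0 : Mt d, InF S lam Q f0 ∧
      ∀ f' : Mt d, InF S lam Q f' → JJ lam Q f0 ≤ (1 + e3) * JJ lam Q f' := by
  set X : Set ℝ := {t | ∃ f' : Mt d, InF S lam Q f' ∧ JJ lam Q f' = t} with hX
  have hXne : X.Nonempty := by
    obtain ⟨f', hf'⟩ := hne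
    exact ⟨_, f', hf', rfl⟩
  have hlow : ∀ t ∈ X, 1 ≤ t := by
    rintro t ⟨f', hf', rfl⟩
    unfold JJ
    have h1 := one_le_tr hf'.pr hf'.nz
    have h2 := tr_hf (hh_pos (by linarith) hQ : (hh lam Q).PosSemidef) hf'.pr
    linarith
  have hbdd : BddBelow X := ⟨1, hlow⟩
  have hm : 1 ≤ sInf X := le_csInf hXne hlow
  obtain ⟨t, ⟨f0, hf0, rfl⟩, ht⟩ := exists_lt_of_csInf_lt hXne
    (show sInf X < (1 + e3) * sInf X by nlinarith)
  refine ⟨f0, hf0, fun f' hf' => ?_⟩
  have h1 : sInf X ≤ JJ lam Q f' := csInf_le hbdd ⟨f', hf', rfl⟩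
  exact ht.le.trans (mul_le_mul_of_nonneg_left h1 (by linarith))

theorem main (hA : ResAP) : GreP := by
  intro d k C η δ S lam e3 hl he
  by_contra hcon
  have key : ∀ n : ℕ, ∃ f : ℕ → Mt d, Greedy S lam e3 n f := by
    intro n
    induction n with
    | zero => exact ⟨fun _ => 0, fun i hi => absurd hi (Nat.not_lt_zero i)⟩
    | succ n ih =>
      obtain ⟨f, hf⟩ := ih
      have hpr : ∀ i < n, IsPr (f i) := fun i hi => (hf i hi).1.pr
      have hne : ∃ f' : Mt d, InF S lam (Qs f n) f' := by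
        by_contra hno
        push Not at hno
        exact hcon ⟨n, f, hf, hno, total hA S hl hf, fun i hi => (hf i hi).1.ov⟩
      obtain ⟨f0, hf0, hf0m⟩ := near_min S hl he (Qs_pos hpr) hne
      have hQ : ∀ i ≤ n, Qs (Function.update f n f0) i = Qs f i := by
        intro i hi
        unfold Qs
        refine Finset.sum_congr rfl fun j hj => ?_
        have := Finset.mem_range.1 hj
        rw [Function.update_of_ne (by omega)]
      refine ⟨Function.update f n f0, fun i hi => ?_⟩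
      rcases Nat.lt_succ_iff_lt_or_eq.1 hi with h | h
      · rw [hQ i h.le, Function.update_of_ne (by omega)]
        exact hf i h
      · subst h
        rw [hQ i le_rfl, Function.update_self]
        exact ⟨hf0, hf0m⟩
  obtain ⟨f, hf⟩ := key (2 * d + 1)
  have := count hA S hl hf
  omega

end Pool.Agent.W654.RC
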